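import Mathlib

/-!
# The alternating orientation of the 4-cycle is not Eulerian-avoidable (MP_a20f66_co, Q1)

More generally no one-directed complete bipartite digraph is Eulerian-avoidable.  The Eulerian
digraphs are wrapped butterfly networks: a set `S` of `d` vertices, layers `G_0, …, G_n`, each a
copy of `[d]^n`, arcs from `x ∈ G_{i+1}` to `y ∈ G_i` when `x` and `y` agree outside the `i`-th
coordinate, all arcs from `G_0` to `S` and all arcs from `S` to `G_n`.
-/

namespace Pool.Agent.Results.MP_a20f66_co.Butterfly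

/-- A digraph on the vertex type `V`: no loops, no multiple arcs, opposite arcs allowed. -/
structure Dgr (V : Type*) where
  Adj : V → V → Prop
  irrefl : ∀ v, ¬ Adj v v

/-- A nonempty subdigraph of `D`: a nonempty set of vertices and a set of arcs of `D` between
them. -/
structure Sub {V : Type*} (D : Dgr V) where
  verts : Set V
  nonempty : verts.Nonempty
  arcs : V → V → Prop
  arcs_le : ∀ u v, arcs u v → D.Adj u v
  src_mem : ∀ u v, arcs u v → u ∈ verts
  tgt_mem : ∀ u v, arcs u v → v ∈ verts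

/-- `D` is Eulerian: every vertex has equal out-degree and in-degree. -/
def Dgr.Eulerian {V : Type*} (D : Dgr V) : Prop :=
  ∀ v, {u | D.Adj v u}.ncard = {u | D.Adj u v}.ncard

/-- The minimum out-degree of `D` is at least `d`. -/
def Dgr.MinOutGe {V : Type*} (D : Dgr V) (d : ℕ) : Prop :=
  ∀ v, d ≤ {u | D.Adj v u}.ncard

/-- The minimum out-degree of the subdigraph `H` is at least `k`. -/
def Sub.MinOutGe {V : Type*} {D : Dgr V} (H : Sub D) (k : ℕ) : Prop :=
  ∀ v ∈ H.verts, k ≤ {u | H.arcs v u}.ncard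

/-- The subdigraph `H` contains (a subdigraph isomorphic to) `F`. -/
def Contains {V W : Type*} {D : Dgr V} (H : Sub D) (F : Dgr W) : Prop :=
  ∃ φ : W → V, Function.Injective φ ∧ (∀ w, φ w ∈ H.verts) ∧
    ∀ u v, F.Adj u v → H.arcs (φ u) (φ v)

/-- `F` is Eulerian-avoidable. -/
def EulerianAvoidable {W : Type*} (F : Dgr W) : Prop :=
  ∃ dF : ℕ → ℕ, ∀ k : ℕ, ∀ (V : Type) [Finite V] [Nonempty V] (D : Dgr V),
    D.Eulerian → D.MinOutGe (dF k) → ∃ H : Sub D, H.MinOutGe k ∧ ¬ Contains H F

/-- `F` is an orientation of the cycle `C_4` with vertices `0, 1, 2, 3` in cyclic order. -/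
def IsOrientationOfC4 (F : Dgr (Fin 4)) : Prop :=
  (∀ i j, F.Adj i j → j = i + 1 ∨ i = j + 1) ∧
  ∀ i, (F.Adj i (i + 1) ∧ ¬ F.Adj (i + 1) i) ∨ (¬ F.Adj i (i + 1) ∧ F.Adj (i + 1) i)

/-- The alternating orientation of `C_4`: two sources `0, 2` and two sinks `1, 3`. -/
def altC4 : Dgr (Fin 4) where
  Adj i j := (i = 0 ∨ i = 2) ∧ (j = 1 ∨ j = 3)
  irrefl := by
    rintro v ⟨h1, h2⟩
    rcases h1 with rfl | rfl <;> rcases h2 with h | h <;> exact absurd h (by decide)

/-- The complete bipartite digraph with `a` sources, `b` sinks and all arcs from the sources to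
the sinks. -/
def KK (a b : ℕ) : Dgr (Fin a ⊕ Fin b) where
  Adj u v := (∃ i, u = Sum.inl i) ∧ ∃ j, v = Sum.inr j
  irrefl := by
    rintro v ⟨⟨i, rfl⟩, ⟨j, h⟩⟩
    exact absurd h (by simp)

/-! ### The network -/

/-- The vertices of the network. -/
abbrev VV (d n : ℕ) : Type := Fin d ⊕ (Fin (n + 1) × (Fin n → Fin d))

/-- The arcs of the network. -/
def adj {d n : ℕ} : VV d n → VV d n → Prop
  | Sum.inl _, Sum.inl _ => False
  | Sum.inl _, Sum.inr p => p.1.val = n
  | Sum.inr p, Sum.inl _ => p.1.val = 0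
  | Sum.inr p, Sum.inr q => p.1.val = q.1.val + 1 ∧ ∀ m : Fin n, m.val ≠ q.1.val → p.2 m = q.2 m

/-- The network. -/
def DD (d n : ℕ) : Dgr (VV d n) where
  Adj := adj
  irrefl := by
    rintro (s | p) h
    · exact h
    · have := h.1
      omega

theorem ncard_range {α β : Type*} [Finite β] {f : α → β} (hf : Function.Injective f) :
    (Set.range f).ncard = Nat.card α := by
  rw [← Set.image_univ, Set.ncard_image_of_injective _ hf, Set.ncard_univ]

variable {d n : ℕ}

theorem out_inl (s : Fin d) : {u | (DD d n).Adj (Sum.inl s) u} =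
    Set.range (fun x : Fin n → Fin d => (Sum.inr (Fin.last n, x) : VV d n)) := by
  ext u
  rcases u with t | ⟨i, x⟩
  · constructor
    · intro h
      exact h.elim
    · rintro ⟨x, hx⟩
      exact absurd hx (by simp)
  · constructor
    · intro h
      have h1 : i.val = n := h
      refine ⟨x, ?_⟩
      have : i = Fin.last n := Fin.ext h1
      rw [this]
    · rintro ⟨y, hy⟩
      have h1 : (Fin.last n, y) = (i, x) := Sum.inr_injective hy
      have h2 : Fin.last n = i := congrArg Prod.fst h1
      change i.val = n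
      rw [← h2]
      rfl

theorem in_inl (s : Fin d) : {u | (DD d n).Adj u (Sum.inl s)} =
    Set.range (fun x : Fin n → Fin d => (Sum.inr (0, x) : VV d n)) := by
  ext u
  rcases u with t | ⟨i, x⟩
  · constructor
    · intro h
      exact h.elim
    · rintro ⟨x, hx⟩
      exact absurd hx (by simp)
  · constructor
    · intro h
      have h1 : i.val = 0 := h
      refine ⟨x, ?_⟩
      have : i = 0 := Fin.ext h1
      rw [this]
    · rintro ⟨y, hy⟩
      have h1 : (0, y) = (i, x) := Sum.inr_injective hy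
      have h2 : 0 = i := congrArg Prod.fst h1
      change i.val = 0
      rw [← h2]
      rfl

theorem out_zero (i : Fin (n + 1)) (hi : i.val = 0) (x : Fin n → Fin d) :
    {u | (DD d n).Adj (Sum.inr (i, x)) u} = Set.range (Sum.inl : Fin d → VV d n) := by
  ext u
  rcases u with t | ⟨j, y⟩
  · exact ⟨fun _ => ⟨t, rfl⟩, fun _ => hi⟩
  · constructor
    · intro h
      have h1 : i.val = j.val + 1 := h.1
      omega
    · rintro ⟨t, ht⟩
      exact absurd ht (by simp)

theorem in_last (i : Fin (n + 1)) (hi : i.val = n) (x : Fin n → Fin d) :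
    {u | (DD d n).Adj u (Sum.inr (i, x))} = Set.range (Sum.inl : Fin d → VV d n) := by
  ext u
  rcases u with t | ⟨j, y⟩
  · exact ⟨fun _ => ⟨t, rfl⟩, fun _ => hi⟩
  · constructor
    · intro h
      have h1 : j.val = i.val + 1 := h.1
      have := j.isLt
      omega
    · rintro ⟨t, ht⟩
      exact absurd ht (by simp)

theorem out_succ (i l : Fin (n + 1)) (m₀ : Fin n) (hl : l.val = m₀.val)
    (hi : i.val = m₀.val + 1) (x : Fin n → Fin d) :
    {u | (DD d n).Adj (Sum.inr (i, x)) u} =
      Set.range (fun a : Fin d => (Sum.inr (l, Function.update x m₀ a) : VV d n)) := by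
  ext u
  rcases u with t | ⟨l', y⟩
  · constructor
    · intro h
      have h1 : i.val = 0 := h
      omega
    · rintro ⟨t, ht⟩
      exact absurd ht (by simp)
  · constructor
    · rintro ⟨h1, h2⟩
      simp only at h1 h2
      have hl' : l' = l := Fin.ext (by omega)
      subst hl'
      refine ⟨y m₀, ?_⟩
      simp only
      congr 2
      funext m
      by_cases hm : m = m₀
      · rw [hm, Function.update_self]
      · rw [Function.update_of_ne hm]
        exact h2 m (fun h => hm (Fin.ext (by omega)))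
    · rintro ⟨a, ha⟩
      have h1 := Sum.inr_injective ha
      have h2 : l = l' := congrArg Prod.fst h1
      have h3 : Function.update x m₀ a = y := congrArg Prod.snd h1
      subst h2
      subst h3
      refine ⟨by simp only; omega, ?_⟩
      intro m hm
      simp only at hm ⊢
      rw [Function.update_of_ne]
      intro h
      exact hm (by rw [h, hl])

theorem in_succ (i l : Fin (n + 1)) (m₀ : Fin n) (hl : l.val = m₀.val + 1)
    (hi : i.val = m₀.val) (x : Fin n → Fin d) :
    {u | (DD d n).Adj u (Sum.inr (i, x))} =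
      Set.range (fun a : Fin d => (Sum.inr (l, Function.update x m₀ a) : VV d n)) := by
  ext u
  rcases u with t | ⟨l', y⟩
  · constructor
    · intro h
      have h1 : i.val = n := h
      have := m₀.isLt
      omega
    · rintro ⟨t, ht⟩
      exact absurd ht (by simp)
  · constructor
    · rintro ⟨h1, h2⟩
      simp only at h1 h2
      have hl' : l' = l := Fin.ext (by omega)
      subst hl'
      refine ⟨y m₀, ?_⟩
      simp only
      congr 2
      funext m
      by_cases hm : m = m₀
      · rw [hm, Function.update_self]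
      · rw [Function.update_of_ne hm]
        exact (h2 m (fun h => hm (Fin.ext (by omega)))).symm
    · rintro ⟨a, ha⟩
      have h1 := Sum.inr_injective ha
      have h2 : l = l' := congrArg Prod.fst h1
      have h3 : Function.update x m₀ a = y := congrArg Prod.snd h1
      subst h2
      subst h3
      refine ⟨by simp only; omega, ?_⟩
      intro m hm
      simp only at hm ⊢
      rw [Function.update_of_ne]
      intro h
      exact hm (by rw [h, hi])

theorem update_inj (x : Fin n → Fin d) (l : Fin (n + 1)) (m : Fin n) :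
    Function.Injective (fun a : Fin d => (Sum.inr (l, Function.update x m a) : VV d n)) := by
  intro a b hab
  have h1 := Sum.inr_injective hab
  have h2 : Function.update x m a = Function.update x m b := congrArg Prod.snd h1
  have := congrFun h2 m
  rwa [Function.update_self, Function.update_self] at this

theorem out_card (i : Fin (n + 1)) (x : Fin n → Fin d) :
    {u | (DD d n).Adj (Sum.inr (i, x)) u}.ncard = d := by
  by_cases hi : i.val = 0
  · rw [out_zero i hi x, ncard_range Sum.inl_injective, Nat.card_eq_fintype_card,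
      Fintype.card_fin]
  · have hlt := i.isLt
    rw [out_succ i ⟨i.val - 1, by omega⟩ ⟨i.val - 1, by omega⟩ rfl (by simp only; omega) x,
      ncard_range (update_inj x _ _), Nat.card_eq_fintype_card, Fintype.card_fin]

theorem in_card (i : Fin (n + 1)) (x : Fin n → Fin d) :
    {u | (DD d n).Adj u (Sum.inr (i, x))}.ncard = d := by
  by_cases hi : i.val = n
  · rw [in_last i hi x, ncard_range Sum.inl_injective, Nat.card_eq_fintype_card,
      Fintype.card_fin]
  · have hlt := i.isLt
    rw [in_succ i ⟨i.val + 1, by omega⟩ ⟨i.val, by omega⟩ rfl rfl x,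
      ncard_range (update_inj x _ _), Nat.card_eq_fintype_card, Fintype.card_fin]

theorem eulerian : (DD d n).Eulerian := by
  rintro (s | ⟨i, x⟩)
  · rw [out_inl, in_inl, ncard_range, ncard_range]
    · intro a b hab
      exact congrArg Prod.snd (Sum.inr_injective hab)
    · intro a b hab
      exact congrArg Prod.snd (Sum.inr_injective hab)
  · rw [out_card, in_card]

theorem minOut (hn : 1 ≤ n) : (DD d n).MinOutGe d := by
  rintro (s | ⟨i, x⟩)
  · rw [out_inl, ncard_range]
    · rw [Nat.card_eq_fintype_card, Fintype.card_fun, Fintype.card_fin, Fintype.card_fin]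
      exact Nat.le_self_pow (by omega) d
    · intro a b hab
      exact congrArg Prod.snd (Sum.inr_injective hab)
  · rw [out_card]

/-! ### The subdigraphs -/

open Classical in
/-- The vertices of the layer `t` in `H`, with the coordinates below `t` forgotten. -/
noncomputable def PP (hd : 0 < d) (H : Sub (DD d n)) (t : ℕ) : Finset (Fin n → Fin d) :=
  (Finset.univ.filter (fun x : Fin n → Fin d =>
    ∃ i : Fin (n + 1), i.val = t ∧ (Sum.inr (i, x) : VV d n) ∈ H.verts)).image
    (fun x m => if m.val < t then ⟨0, hd⟩ else x m)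

theorem mem_PP (hd : 0 < d) (H : Sub (DD d n)) (t : ℕ) (z : Fin n → Fin d) :
    z ∈ PP hd H t ↔ ∃ x : Fin n → Fin d, (∃ i : Fin (n + 1), i.val = t ∧
      (Sum.inr (i, x) : VV d n) ∈ H.verts) ∧ (fun m => if m.val < t then ⟨0, hd⟩ else x m) = z := by
  classical
  unfold PP
  rw [Finset.mem_image]
  simp only [Finset.mem_filter, Finset.mem_univ, true_and]

theorem PP_succ (hd : 0 < d) (H : Sub (DD d n)) (hH : H.MinOutGe 2) (t : ℕ) (ht : t < n) :
    2 * (PP hd H (t + 1)).card ≤ (PP hd H t).card := by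
  classical
  -- for every element of the next set two distinct preimages
  have key : ∀ z : Fin n → Fin d, ∃ y y' : Fin n → Fin d, z ∈ PP hd H (t + 1) →
      y ∈ PP hd H t ∧ y' ∈ PP hd H t ∧ y ≠ y' ∧
      (fun m : Fin n => if m.val < t + 1 then ⟨0, hd⟩ else y m) = z ∧
      (fun m : Fin n => if m.val < t + 1 then ⟨0, hd⟩ else y' m) = z := by
    intro z
    by_cases hz : z ∈ PP hd H (t + 1)
    swap
    · exact ⟨z, z, fun h => absurd h hz⟩
    rw [mem_PP] at hz
    obtain ⟨x, ⟨i, hi, hx⟩, hz⟩ := hz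
    have h2 := hH _ hx
    obtain ⟨u, u', hu, hu', huu⟩ := (Set.one_lt_ncard_iff (Set.toFinite _)).1
      (show 1 < {u | H.arcs (Sum.inr (i, x)) u}.ncard by omega)
    have harc : ∀ v, H.arcs (Sum.inr (i, x)) v → ∃ y : Fin n → Fin d, ∃ l : Fin (n + 1),
        l.val = t ∧ v = Sum.inr (l, y) ∧ ∀ m : Fin n, m.val ≠ t → x m = y m := by
      intro v hv
      have hadj := H.arcs_le _ _ hv
      rcases v with s | ⟨l, y⟩
      · have h1 : i.val = 0 := hadj
        omega
      · have h1 : i.val = l.val + 1 := hadj.1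
        have h3 : ∀ m : Fin n, m.val ≠ l.val → x m = y m := hadj.2
        have hl : l.val = t := by omega
        exact ⟨y, l, hl, rfl, fun m hm => h3 m (by omega)⟩
    obtain ⟨y, l, hl, rfl, hy⟩ := harc u hu
    obtain ⟨y', l', hl', rfl, hy'⟩ := harc u' hu'
    have hll : l = l' := Fin.ext (by omega)
    subst hll
    have hyy : y ≠ y' := fun h => huu (by rw [h])
    -- the two out-neighbours differ in the coordinate `t`
    have hdiff : ∃ m : Fin n, m.val = t ∧ y m ≠ y' m := by
      by_contra hcon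
      push Not at hcon
      apply hyy
      funext m
      by_cases hm : m.val = t
      · exact hcon m hm
      · rw [← hy m hm, ← hy' m hm]
    obtain ⟨m₀, hm₀, hd₀⟩ := hdiff
    refine ⟨fun m => if m.val < t then ⟨0, hd⟩ else y m,
      fun m => if m.val < t then ⟨0, hd⟩ else y' m, fun _ => ⟨?_, ?_, ?_, ?_, ?_⟩⟩
    · rw [mem_PP]
      exact ⟨y, ⟨l, hl, H.tgt_mem _ _ hu⟩, rfl⟩
    · rw [mem_PP]
      exact ⟨y', ⟨l, hl, H.tgt_mem _ _ hu'⟩, rfl⟩
    · intro h
      have h1 := congrFun h m₀
      simp only [hm₀, lt_irrefl, if_false] at h1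
      exact hd₀ h1
    · rw [← hz]
      funext m
      by_cases hm : m.val < t + 1
      · simp only [if_pos hm]
      · simp only [if_neg hm]
        rw [if_neg (by omega), hy m (by omega)]
    · rw [← hz]
      funext m
      by_cases hm : m.val < t + 1
      · simp only [if_pos hm]
      · simp only [if_neg hm]
        rw [if_neg (by omega), hy' m (by omega)]
  choose y y' hyy using key
  have h1 : ((PP hd H (t + 1)) ×ˢ (Finset.univ : Finset Bool)).card ≤ (PP hd H t).card := by
    apply Finset.card_le_card_of_injOn (fun p => if p.2 then y p.1 else y' p.1)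
    · rintro ⟨z, b⟩ hz
      have hz1 := (Finset.mem_product.1 (Finset.mem_coe.1 hz)).1
      simp only at hz1
      obtain ⟨h1, h2, _⟩ := hyy z hz1
      cases b
      · simpa using h2
      · simpa using h1
    · rintro ⟨z, b⟩ hz ⟨z', b'⟩ hz' h
      have hz1 := (Finset.mem_product.1 (Finset.mem_coe.1 hz)).1
      have hz1' := (Finset.mem_product.1 (Finset.mem_coe.1 hz')).1
      simp only at hz1 hz1' h
      obtain ⟨_, _, hne, ha, hb⟩ := hyy z hz1
      obtain ⟨_, _, hne', ha', hb'⟩ := hyy z' hz1'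
      have hzz : z = z' := by
        cases b <;> cases b' <;> simp only [if_true, if_false, Bool.false_eq_true] at h
        · rw [← hb, ← hb', h]
        · rw [← hb, ← ha', h]
        · rw [← ha, ← hb', h]
        · rw [← ha, ← ha', h]
      subst hzz
      cases b <;> cases b' <;> simp only [if_true, if_false, Bool.false_eq_true] at h
      · rfl
      · exact absurd h.symm hne
      · exact absurd h hne
      · rfl
  rw [Finset.card_product, Finset.card_univ, Fintype.card_bool] at h1
  omega

theorem PP_pow (hd : 0 < d) (H : Sub (DD d n)) (hH : H.MinOutGe 2) (t : ℕ) (ht : t ≤ n) :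
    2 ^ t * (PP hd H t).card ≤ (PP hd H 0).card := by
  induction t with
  | zero => simp
  | succ t ih =>
      have h1 := PP_succ hd H hH t (by omega)
      have h2 := ih (by omega)
      calc 2 ^ (t + 1) * (PP hd H (t + 1)).card = 2 ^ t * (2 * (PP hd H (t + 1)).card) := by ring
        _ ≤ 2 ^ t * (PP hd H t).card := Nat.mul_le_mul_left _ h1
        _ ≤ _ := h2

/-- If `H` has at least `a * 2 ^ d` vertices in the layer `0`, it contains `K_{a,b}`. -/
theorem contains_KK (hd : 0 < d) (H : Sub (DD d n)) (a b k : ℕ) (ha : 0 < a) (hb : b ≤ k)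
    (hH : H.MinOutGe k) (hA : a * 2 ^ d ≤ (PP hd H 0).card) : Contains H (KK a b) := by
  classical
  -- the out-neighbourhoods
  let N : (Fin n → Fin d) → Finset (Fin d) := fun x =>
    Finset.univ.filter (fun s => H.arcs (Sum.inr (0, x)) (Sum.inl s))
  have hmem : ∀ x, x ∈ PP hd H 0 → (Sum.inr (0, x) : VV d n) ∈ H.verts := by
    intro x hx
    rw [mem_PP] at hx
    obtain ⟨x', ⟨i, hi, hx'⟩, h⟩ := hx
    have hi' : i = 0 := Fin.ext hi
    have : x' = x := by
      rw [← h]
      funext m
      simp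
    rw [← hi', ← this]
    exact hx'
  have hcard : (Finset.univ : Finset (Finset (Fin d))).card * a ≤ (PP hd H 0).card := by
    rw [Finset.card_univ, Fintype.card_finset, Fintype.card_fin, mul_comm]
    exact hA
  obtain ⟨T, _, hT⟩ := Finset.exists_le_card_fiber_of_mul_le_card_of_maps_to
    (f := N) (s := PP hd H 0) (t := Finset.univ) (fun x _ => Finset.mem_univ _)
    ⟨∅, Finset.mem_univ _⟩ hcard
  obtain ⟨R, hR, hRc⟩ := Finset.exists_subset_card_eq hT
  have hRN : ∀ x ∈ R, x ∈ PP hd H 0 ∧ N x = T := by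
    intro x hx
    have := hR hx
    rw [Finset.mem_filter] at this
    exact this
  have hRne : R.Nonempty := by
    rw [← Finset.card_pos, hRc]
    exact ha
  obtain ⟨x₀, hx₀⟩ := hRne
  have hTk : b ≤ T.card := by
    refine le_trans hb ?_
    have h1 := hH _ (hmem x₀ (hRN x₀ hx₀).1)
    have hsub : {u | H.arcs (Sum.inr (0, x₀)) u} ⊆ Sum.inl '' (T : Set (Fin d)) := by
      rintro (s | p) hu
      · refine ⟨s, ?_, rfl⟩
        rw [Finset.mem_coe, ← (hRN x₀ hx₀).2, Finset.mem_filter]
        exact ⟨Finset.mem_univ _, hu⟩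
      · have h2 : (0 : Fin (n + 1)).val = p.1.val + 1 := (H.arcs_le _ _ hu).1
        have h3 : (0 : Fin (n + 1)).val = 0 := rfl
        omega
    refine le_trans h1 (le_trans (Set.ncard_le_ncard hsub (Set.toFinite _)) ?_)
    rw [Set.ncard_image_of_injective _ Sum.inl_injective, Set.ncard_coe_finset]
  obtain ⟨T', hT', hT'c⟩ := Finset.exists_subset_card_eq hTk
  let e := R.equivFinOfCardEq hRc
  let f := T'.equivFinOfCardEq hT'c
  refine ⟨fun w => Sum.elim (fun i => (Sum.inr (0, (e.symm i).1) : VV d n))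
    (fun j => Sum.inl (f.symm j).1) w, ?_, ?_, ?_⟩
  · rintro (i | j) (i' | j') h
    · simp only [Sum.elim_inl] at h
      have h1 : (e.symm i).1 = (e.symm i').1 := congrArg Prod.snd (Sum.inr_injective h)
      exact congrArg Sum.inl (e.symm.injective (Subtype.ext h1))
    · simp at h
    · simp at h
    · simp only [Sum.elim_inr] at h
      have h1 : (f.symm j).1 = (f.symm j').1 := Sum.inl_injective h
      exact congrArg Sum.inr (f.symm.injective (Subtype.ext h1))
  · have harc : ∀ j : Fin b, H.arcs (Sum.inr (0, x₀)) (Sum.inl (f.symm j).1) := by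
      intro j
      have h1 := hT' (f.symm j).2
      rw [← (hRN x₀ hx₀).2, Finset.mem_filter] at h1
      exact h1.2
    rintro (i | j)
    · exact hmem _ (hRN _ (e.symm i).2).1
    · exact H.tgt_mem _ _ (harc j)
  · rintro u v ⟨⟨i, rfl⟩, ⟨j, rfl⟩⟩
    have h1 := hT' (f.symm j).2
    rw [← (hRN _ (e.symm i).2).2, Finset.mem_filter] at h1
    exact h1.2

theorem main (hd : 0 < d) (H : Sub (DD d n)) (a b k : ℕ) (ha : 0 < a) (hb : b ≤ k) (hk : 2 ≤ k)
    (hn : a + d ≤ n) (hH : H.MinOutGe k) : Contains H (KK a b) := by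
  by_contra hcon
  have hH2 : H.MinOutGe 2 := fun v hv => le_trans hk (hH v hv)
  have hA : (PP hd H 0).card < a * 2 ^ d := by
    by_contra h
    exact hcon (contains_KK hd H a b k ha hb hH (not_lt.1 h))
  have hlast : (PP hd H n).card = 0 := by
    have h1 := PP_pow hd H hH2 n le_rfl
    have h2 : a * 2 ^ d ≤ 2 ^ n := by
      calc a * 2 ^ d ≤ 2 ^ a * 2 ^ d := Nat.mul_le_mul_right _ (Nat.lt_two_pow_self).le
        _ = 2 ^ (a + d) := by rw [pow_add]
        _ ≤ 2 ^ n := Nat.pow_le_pow_right (by norm_num) hn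
    by_contra h
    have h3 : 1 ≤ (PP hd H n).card := Nat.one_le_iff_ne_zero.2 h
    have h4 : 2 ^ n * 1 ≤ 2 ^ n * (PP hd H n).card := Nat.mul_le_mul_left _ h3
    omega
  have hout : ∀ v, ({u | H.arcs v u} : Set (VV d n)) ⊆ ∅ → v ∉ H.verts := by
    intro v hv hvm
    have h1 := hH v hvm
    have h2 := Set.ncard_le_ncard hv (Set.toFinite _)
    rw [Set.ncard_empty] at h2
    omega
  have h0 : ∀ (i : Fin (n + 1)) (x : Fin n → Fin d), i.val = n →
      (Sum.inr (i, x) : VV d n) ∉ H.verts := by
    intro i x hi hx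
    rw [Finset.card_eq_zero] at hlast
    have : (fun m : Fin n => if m.val < n then ⟨0, hd⟩ else x m) ∈ PP hd H n := by
      rw [mem_PP]
      exact ⟨x, ⟨i, hi, hx⟩, rfl⟩
    rw [hlast] at this
    exact absurd this (Finset.notMem_empty _)
  have hS : ∀ s : Fin d, (Sum.inl s : VV d n) ∉ H.verts := by
    intro s
    apply hout
    rintro (t | ⟨i, x⟩) hu
    · exact (H.arcs_le _ _ hu).elim
    · exact absurd (H.tgt_mem _ _ hu) (h0 i x (H.arcs_le _ _ hu))
  have hL : ∀ (t : ℕ) (i : Fin (n + 1)) (x : Fin n → Fin d), i.val = t →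
      (Sum.inr (i, x) : VV d n) ∉ H.verts := by
    intro t
    induction t with
    | zero =>
        intro i x hi
        apply hout
        rintro (s | ⟨j, y⟩) hu
        · exact absurd (H.tgt_mem _ _ hu) (hS s)
        · have : i.val = j.val + 1 := (H.arcs_le _ _ hu).1
          omega
    | succ t ih =>
        intro i x hi
        apply hout
        rintro (s | ⟨j, y⟩) hu
        · exact absurd (H.tgt_mem _ _ hu) (hS s)
        · have : i.val = j.val + 1 := (H.arcs_le _ _ hu).1
          exact absurd (H.tgt_mem _ _ hu) (ih j y (by omega))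
  obtain ⟨v, hv⟩ := H.nonempty
  rcases v with s | ⟨i, x⟩
  · exact hS s hv
  · exact hL _ i x rfl hv

/-- For every `d` there is an Eulerian digraph of minimum out-degree at least `d` all of whose
nonempty subdigraphs of minimum out-degree at least `max 2 b` contain `K_{a,b}`. -/
theorem explicit (a b : ℕ) (ha : 0 < a) (d₀ : ℕ) :
    ∃ (V : Type) (_ : Finite V) (_ : Nonempty V) (D : Dgr V), D.Eulerian ∧ D.MinOutGe d₀ ∧
      ∀ H : Sub D, H.MinOutGe (max 2 b) → Contains H (KK a b) := by
  refine ⟨VV (d₀ + 1) (a + (d₀ + 1)), inferInstance, ⟨Sum.inl 0⟩,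
    DD (d₀ + 1) (a + (d₀ + 1)), eulerian, ?_, ?_⟩
  · intro v
    exact le_trans (Nat.le_succ _) (minOut (by omega) v)
  · intro H hH
    exact main (Nat.succ_pos _) H a b (max 2 b) ha (le_max_right _ _) (le_max_left _ _) le_rfl hH

theorem not_avoidable_of_explicit {W : Type} (F : Dgr W) (k : ℕ)
    (hF : ∀ d₀ : ℕ, ∃ (V : Type) (_ : Finite V) (_ : Nonempty V) (D : Dgr V), D.Eulerian ∧
      D.MinOutGe d₀ ∧ ∀ H : Sub D, H.MinOutGe k → Contains H F) : ¬ EulerianAvoidable F := by
  rintro ⟨dF, hdF⟩
  obtain ⟨V, i1, i2, D, hE, hD, hall⟩ := hF (dF k)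
  obtain ⟨H, hH, hno⟩ := hdF k V D hE hD
  exact hno (hall H hH)

theorem altC4_orientation : IsOrientationOfC4 altC4 := by
  have key1 : ∀ i j : Fin 4, ((i = 0 ∨ i = 2) ∧ (j = 1 ∨ j = 3)) → j = i + 1 ∨ i = j + 1 := by
    decide
  have key2 : ∀ i : Fin 4,
      (((i = 0 ∨ i = 2) ∧ (i + 1 = 1 ∨ i + 1 = 3)) ∧
        ¬ ((i + 1 = 0 ∨ i + 1 = 2) ∧ (i = 1 ∨ i = 3))) ∨
      (¬ ((i = 0 ∨ i = 2) ∧ (i + 1 = 1 ∨ i + 1 = 3)) ∧
        ((i + 1 = 0 ∨ i + 1 = 2) ∧ (i = 1 ∨ i = 3))) := by
    decide
  exact ⟨fun i j h => key1 i j h, fun i => key2 i⟩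

/-- The alternating 4-cycle embeds in `K_{2,2}`. -/
theorem contains_alt {V : Type} {D : Dgr V} (H : Sub D) (h : Contains H (KK 2 2)) :
    Contains H altC4 := by
  obtain ⟨φ, hφ, hv, ha⟩ := h
  let g : Fin 4 → Fin 2 ⊕ Fin 2 := ![Sum.inl 0, Sum.inr 0, Sum.inl 1, Sum.inr 1]
  have hg : Function.Injective g := by decide
  refine ⟨fun i => φ (g i), hφ.comp hg, fun i => hv _, ?_⟩
  rintro u v ⟨hu, hv'⟩
  apply ha
  rcases hu with rfl | rfl <;> rcases hv' with rfl | rfl
  · exact ⟨⟨0, rfl⟩, ⟨0, rfl⟩⟩
  · exact ⟨⟨0, rfl⟩, ⟨1, rfl⟩⟩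
  · exact ⟨⟨1, rfl⟩, ⟨0, rfl⟩⟩
  · exact ⟨⟨1, rfl⟩, ⟨1, rfl⟩⟩

/-- The alternating orientation of `C_4` is not Eulerian-avoidable (with `k = 2`), so not every
orientation of `C_4` is Eulerian-avoidable; more generally no one-directed complete bipartite
digraph is Eulerian-avoidable. -/
theorem result :
    (∀ d : ℕ, ∃ (V : Type) (_ : Finite V) (_ : Nonempty V) (D : Dgr V), D.Eulerian ∧
      D.MinOutGe d ∧ ∀ H : Sub D, H.MinOutGe 2 → Contains H altC4) ∧
    (IsOrientationOfC4 altC4 ∧ ¬ EulerianAvoidable altC4) ∧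
    (¬ ∀ F : Dgr (Fin 4), IsOrientationOfC4 F → EulerianAvoidable F) ∧
    (∀ a b : ℕ, 0 < a → ¬ EulerianAvoidable (KK a b)) := by
  have h1 : ∀ d : ℕ, ∃ (V : Type) (_ : Finite V) (_ : Nonempty V) (D : Dgr V), D.Eulerian ∧
      D.MinOutGe d ∧ ∀ H : Sub D, H.MinOutGe 2 → Contains H altC4 := by
    intro d
    obtain ⟨V, i1, i2, D, hE, hD, hall⟩ := explicit 2 2 (by norm_num) d
    exact ⟨V, i1, i2, D, hE, hD, fun H hH => contains_alt H (hall H hH)⟩
  have h2 : ¬ EulerianAvoidable altC4 := not_avoidable_of_explicit altC4 2 h1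
  refine ⟨h1, ⟨altC4_orientation, h2⟩, fun h => h2 (h altC4 altC4_orientation), ?_⟩
  intro a b ha
  exact not_avoidable_of_explicit (KK a b) (max 2 b) (explicit a b ha)

end Pool.Agent.Results.MP_a20f66_co.Butterfly
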